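import Pool.Agent.LRY.Stmts

/-!
# Squad LRY, row QOV: the quadratic extensions of a given field
-/

set_option autoImplicit false

open Polynomial NumberField
open Pool.Agent.LRG Pool.Agent.LRN

namespace Pool.Agent.LRY.H78

open Pool.Agent.LRY

/-- The field generated by `E` and the roots of `z ^ 2 - a z + b`. -/
noncomputable def FF (E : IntermediateField ℚ ℂ) (a b : E) : IntermediateField ℚ ℂ :=
  IntermediateField.adjoin ℚ ((E : Set ℂ) ∪ {z : ℂ | z ^ 2 - (a : ℂ) * z + (b : ℂ) = 0})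

theorem nf_of_le {E K : IntermediateField ℚ ℂ} (h : E ≤ K) [NumberField K] : NumberField E := by
  have : FiniteDimensional ℚ E :=
    FiniteDimensional.of_injective (IntermediateField.inclusion h).toLinearMap
      (IntermediateField.inclusion h).injective
  exact { to_charZero := inferInstance, to_finiteDimensional := this }

theorem eq_FF (hR : RsfStmt) {E K : IntermediateField ℚ ℂ} [NumberField K] (hEK : E ≤ K)
    (hdeg : Module.finrank ℚ K = 2 * Module.finrank ℚ E) (z : K) (hz : (z : ℂ) ∉ E)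
    (a b : E) (hzab : (z : ℂ) ^ 2 - (a : ℂ) * (z : ℂ) + (b : ℂ) = 0) : K = FF E a b := by
  have haK : (a : ℂ) ∈ K := hEK a.2
  have h1 : FF E a b ≤ K := by
    unfold FF
    rw [IntermediateField.adjoin_le_iff]
    rintro w (hw | hw)
    · exact hEK hw
    · have hw' : w ^ 2 - (a : ℂ) * w + (b : ℂ) = 0 := hw
      have h2 : (w - z) * (w + z - a) = 0 := by linear_combination hw' - hzab
      rcases mul_eq_zero.1 h2 with h3 | h3
      · rw [sub_eq_zero.1 h3]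
        exact z.2
      · have h4 : w = a - z := by linear_combination h3
        rw [h4]
        exact K.sub_mem haK z.2
  have h2 : E ≤ FF E a b := by
    intro w hw
    exact IntermediateField.subset_adjoin ℚ _ (Or.inl hw)
  have h3 : (z : ℂ) ∈ FF E a b := IntermediateField.subset_adjoin ℚ _ (Or.inr hzab)
  have hF : NumberField (FF E a b) := nf_of_le h1
  obtain ⟨E₁, _, _, r1, _⟩ := hR E (FF E a b) h2
  obtain ⟨E₂, _, _, r2, _⟩ := hR (FF E a b) K h1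
  have hE : NumberField E := nf_of_le hEK
  have hEpos : 0 < Module.finrank ℚ E := Module.finrank_pos
  have hFE : Module.finrank ℚ E ≠ Module.finrank ℚ (FF E a b) := by
    intro h
    have h4 : E = FF E a b := IntermediateField.eq_of_le_of_finrank_eq h2 h
    exact hz (h4 ▸ h3)
  symm
  refine IntermediateField.eq_of_le_of_finrank_eq h1 ?_
  obtain ⟨e, he⟩ : ∃ e, e = Module.finrank ℚ E := ⟨_, rfl⟩
  obtain ⟨f, hf⟩ : ∃ f, f = Module.finrank ℚ (FF E a b) := ⟨_, rfl⟩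
  obtain ⟨k, hk⟩ : ∃ k, k = Module.finrank ℚ K := ⟨_, rfl⟩
  rw [← he, ← hf] at r1 hFE
  rw [← hf, ← hk] at r2
  rw [← he] at hEpos
  rw [← hk, ← he] at hdeg
  rw [← hf, ← hk]
  obtain ⟨c, hc⟩ : ∃ c, c = Module.finrank E₁ (FF E a b) := ⟨_, rfl⟩
  obtain ⟨d, hd⟩ : ∃ d, d = Module.finrank E₂ K := ⟨_, rfl⟩
  rw [← hc] at r1
  rw [← hd] at r2
  have h6 : c * d = 2 := by
    have h7 : e * (c * d) = e * 2 := by
      rw [← mul_assoc, r1, r2, hdeg, mul_comm]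
    exact Nat.eq_of_mul_eq_mul_left hEpos h7
  have h7 : c ≠ 1 := by
    intro h
    rw [h, mul_one] at r1
    exact hFE r1
  have h8 : c ∣ 2 := ⟨d, h6.symm⟩
  rcases (Nat.dvd_prime Nat.prime_two).1 h8 with h9 | h9
  · exact absurd h9 h7
  · rw [← r1, h9, hdeg, mul_comm]

theorem over_sub (hQ : QpoStmt) (hR : RsfStmt) (E : IntermediateField ℚ ℂ) [NumberField E]
    (X : ℝ) : Over E X ⊆ (fun p : 𝓞 E × (𝓞 E)ˣ => FF E (p.1 : E) ((p.2 : 𝓞 E) : E)) ''
      ({a : 𝓞 E | ∀ σ : E →+* ℂ, ‖σ (a : E)‖ ≤ 2 * X} ×ˢ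
        {b : (𝓞 E)ˣ | ∀ σ : E →+* ℂ, ‖σ ((b : 𝓞 E) : E)‖ ≤ X ^ 2}) := by
  rintro K ⟨hEK, hK, hdeg, u, hu, hX⟩
  obtain ⟨E', f, hf, r1, r2⟩ := hR E K hEK
  have hEpos : 0 < Module.finrank ℚ E := Module.finrank_pos
  have h2 : Module.finrank E' K = 2 := by
    rw [hdeg, mul_comm 2] at r1
    exact Nat.eq_of_mul_eq_mul_left hEpos r1
  obtain ⟨a, b, ha, hb, hab⟩ := hQ K E' u X h2 hX
  have hφ : ∀ y : 𝓞 E', ((RingOfIntegers.mapRingEquiv f y : 𝓞 E) : E) = f (y : E') := by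
    intro y
    rfl
  refine ⟨(RingOfIntegers.mapRingEquiv f a, Units.map
    (RingOfIntegers.mapRingEquiv f : 𝓞 E' ≃+* 𝓞 E).toRingHom.toMonoidHom b), ⟨?_, ?_⟩, ?_⟩
  · intro τ
    show ‖τ ((RingOfIntegers.mapRingEquiv f a : 𝓞 E) : E)‖ ≤ 2 * X
    rw [hφ]
    exact ha (τ.comp f.toRingHom)
  · intro τ
    show ‖τ ((RingOfIntegers.mapRingEquiv f (b : 𝓞 E') : 𝓞 E) : E)‖ ≤ X ^ 2
    rw [hφ]
    exact hb (τ.comp f.toRingHom)
  · symm
    refine eq_FF hR hEK hdeg ((u : 𝓞 K) : K) hu _ _ ?_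
    show (((u : 𝓞 K) : K) : ℂ) ^ 2 -
      (((RingOfIntegers.mapRingEquiv f a : 𝓞 E) : E) : ℂ) * (((u : 𝓞 K) : K) : ℂ) +
      (((RingOfIntegers.mapRingEquiv f (b : 𝓞 E') : 𝓞 E) : E) : ℂ) = 0
    rw [hφ, hφ, hf, hf]
    have h3 := congrArg (fun x : K => (x : ℂ)) hab
    simpa using h3

theorem log_pow_le (m : ℕ) {ε : ℝ} (hε : 0 < ε) : ∃ C : ℝ, 0 ≤ C ∧ ∀ X : ℝ, 1 ≤ X →
    (1 + Real.log (X ^ 2)) ^ m ≤ C * X ^ ε := by
  obtain ⟨δ, hδ⟩ : ∃ δ : ℝ, δ = ε / (m + 1) := ⟨_, rfl⟩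
  have hm : (0 : ℝ) < m + 1 := by positivity
  have hδ0 : 0 < δ := by rw [hδ]; positivity
  refine ⟨(1 + 2 / δ) ^ m, by positivity, fun X hX => ?_⟩
  have hX0 : 0 < X := by linarith
  have h1 : Real.log X ≤ X ^ δ / δ := Real.log_le_rpow_div hX0.le hδ0
  have h2 : 1 ≤ X ^ δ := Real.one_le_rpow hX hδ0.le
  have h3 : 0 ≤ Real.log X := Real.log_nonneg hX
  have h4 : 1 + Real.log (X ^ 2) ≤ (1 + 2 / δ) * X ^ δ := by
    rw [Real.log_pow]
    calc (1 : ℝ) + (2 : ℕ) * Real.log X ≤ X ^ δ + 2 * (X ^ δ / δ) := by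
          push_cast
          linarith
      _ = (1 + 2 / δ) * X ^ δ := by ring
  have h5 : 0 ≤ 1 + Real.log (X ^ 2) := by
    rw [Real.log_pow]
    positivity
  calc (1 + Real.log (X ^ 2)) ^ m ≤ ((1 + 2 / δ) * X ^ δ) ^ m := pow_le_pow_left₀ h5 h4 m
    _ = (1 + 2 / δ) ^ m * X ^ (δ * m) := by
        rw [mul_pow, Real.rpow_mul hX0.le, Real.rpow_natCast]
    _ ≤ (1 + 2 / δ) ^ m * X ^ ε := by
        refine mul_le_mul_of_nonneg_left ?_ (by positivity)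
        refine Real.rpow_le_rpow_of_exponent_le hX ?_
        rw [hδ, div_mul_eq_mul_div, div_le_iff₀ hm]
        nlinarith

theorem qov : QovStmt := by
  intro hA hB hQ hR m ε hε
  obtain ⟨C₁, hC₁, hC⟩ := hB m
  obtain ⟨C₂, hC₂, hL⟩ := log_pow_le m hε
  refine ⟨14 ^ m * (C₁ * C₂), by positivity, ?_⟩
  intro E hE X hX
  have hX0 : 0 < X := by linarith
  rcases Set.eq_empty_or_nonempty (Over E X) with h0 | ⟨K, hEK, hK, -⟩
  · rw [h0]
    refine ⟨Set.finite_empty, ?_⟩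
    rw [Set.ncard_empty, Nat.cast_zero]
    positivity
  · have hNE : NumberField E := nf_of_le hEK
    obtain ⟨a1, a2⟩ := hA E (2 * X) (by linarith)
    obtain ⟨b1, b2⟩ := hC E hE.le (X ^ 2) (by nlinarith)
    have hsub := over_sub hQ hR E X
    have hfin := (a1.prod b1).image
      (fun p : 𝓞 E × (𝓞 E)ˣ => FF E (p.1 : E) ((p.2 : 𝓞 E) : E))
    refine ⟨hfin.subset hsub, ?_⟩
    have h1 := (Set.ncard_le_ncard hsub hfin).trans (Set.ncard_image_le (a1.prod b1))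
    rw [Set.ncard_prod] at h1
    have h2 : ((Over E X).ncard : ℝ) ≤ _ := Nat.cast_le.2 h1
    rw [Nat.cast_mul] at h2
    rw [hE] at a2
    calc ((Over E X).ncard : ℝ) ≤ _ := h2
      _ ≤ (7 * (2 * X)) ^ m * (C₁ * (1 + Real.log (X ^ 2)) ^ m) :=
          mul_le_mul a2 b2 (Nat.cast_nonneg _) (by positivity)
      _ ≤ (7 * (2 * X)) ^ m * (C₁ * (C₂ * X ^ ε)) := by
          refine mul_le_mul_of_nonneg_left ?_ (by positivity)
          exact mul_le_mul_of_nonneg_left (hL X hX) hC₁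
      _ = 14 ^ m * (C₁ * C₂) * X ^ ((m : ℝ) + ε) := by
          rw [Real.rpow_add hX0, Real.rpow_natCast]
          ring

end Pool.Agent.LRY.H78
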